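import Mathlib
import Pool.Agent.Lib.MP_0b691a_pr.Scale
import Pool.Agent.Lib.MP_0b691a_pr.Unique

set_option autoImplicit false

open MeasureTheory Set

namespace Pool.Agent.Results.MP_0b691a_pr.SmoothScaleJumpTail

/-- `ν` is the Levy measure of a Levy process without positive jumps: it lives on `(-∞, 0)` and
`∫ min(1, y²) ν(dy) < ∞`. -/
def IsLevyMeasure (ν : Measure ℝ) : Prop :=
  ν (Ici 0) = 0 ∧ (∫⁻ y, ENNReal.ofReal (min 1 (y ^ 2)) ∂ν) < ⊤

/-- The integrand `e^{λ y} - 1 - λ y 1_{y > -1}` of the Laplace exponent. -/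
noncomputable def integrand (l y : ℝ) : ℝ :=
  Real.exp (l * y) - 1 - l * y * (if -1 < y then 1 else 0)

/-- The Laplace exponent
`ψ(λ) = μ λ + σ² λ² / 2 + ∫_{(-∞,0)} (e^{λ y} - 1 - λ y 1_{y > -1}) ν(dy)` of the triplet
`(μ, σ, ν)`. -/
noncomputable def psi (μ σ : ℝ) (ν : Measure ℝ) (l : ℝ) : ℝ :=
  μ * l + 1 / 2 * σ ^ 2 * l ^ 2 + ∫ y in Iio 0, integrand l y ∂ν

/-- `W` is the scale function of the triplet `(μ, σ, ν)`, where `Φ` is the largest root of the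
Laplace exponent on `[0, ∞)`: `W` is nonnegative, zero on `(-∞, 0)`, right-continuous on `[0, ∞)`
and `∫_0^∞ e^{-β x} W(x) dx = 1 / ψ(β)` for every `β > Φ`. -/
structure IsScaleFunction (μ σ : ℝ) (ν : Measure ℝ) (Φ : ℝ) (W : ℝ → ℝ) : Prop where
  root : IsGreatest {l : ℝ | 0 ≤ l ∧ psi μ σ ν l = 0} Φ
  nonneg : ∀ x, 0 ≤ W x
  eq_zero : ∀ x, x < 0 → W x = 0
  right_cont : ∀ x, 0 ≤ x → ContinuousWithinAt W (Ici x) x
  integrable : ∀ β, Φ < β → IntegrableOn (fun x => Real.exp (-β * x) * W x) (Ici 0)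
  laplace : ∀ β, Φ < β → (∫ x in Ici (0 : ℝ), Real.exp (-β * x) * W x) = 1 / psi μ σ ν β

/-- Doney's equivalence fails. There are a drift `μ` and a Levy measure `ν` on `(-∞, 0)` with
`∫_{(-1,0)} |y| ν(dy) = ∞` such that for the triplet `(μ, 0, ν)` (no Gaussian part, unbounded
variation) the Laplace exponent is given by a convergent integral and positive right of its largest
root `Φ`, and the scale function `W` (which is unique) is continuous on `ℝ`, strictly increasing on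
`[0, ∞)` and twice continuously differentiable on `(0, ∞)`, while the (finite) tail
`y ↦ ν(-∞, -y)` is not even continuous on `(0, ∞)`. -/
theorem result : ∃ (μ : ℝ) (ν : Measure ℝ) (Φ : ℝ) (W : ℝ → ℝ),
    IsLevyMeasure ν ∧
    (∫⁻ y in Ioo (-1 : ℝ) 0, ENNReal.ofReal |y| ∂ν) = ⊤ ∧
    (∀ l : ℝ, 0 ≤ l → IntegrableOn (integrand l) (Iio 0) ν) ∧
    IsScaleFunction μ 0 ν Φ W ∧
    (∀ V : ℝ → ℝ, IsScaleFunction μ 0 ν Φ V → V = W) ∧
    (∀ β : ℝ, Φ < β → 0 < psi μ 0 ν β) ∧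
    Continuous W ∧ StrictMonoOn W (Ici 0) ∧
    ContDiffOn ℝ 2 W (Ioi 0) ∧
    (∀ y : ℝ, 0 < y → ν (Iio (-y)) < ⊤) ∧
    ¬ ContinuousOn (fun y => (ν (Iio (-y))).toReal) (Ioi 0) := by
  have hres : (Lib.MP_0b691a_pr.nu).restrict (Iio 0) = Lib.MP_0b691a_pr.nu := by
    apply Measure.restrict_eq_self_of_ae_mem
    rw [ae_iff]
    have : {a : ℝ | a ∉ Iio (0:ℝ)} = Ici 0 := by ext x; simp
    rw [this]
    exact Lib.MP_0b691a_pr.nu_Ici
  have hint : ∀ l : ℝ, integrand l =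
      fun x => Real.exp (l * x) - 1 - (if -1 < x then l * x else 0) := by
    intro l
    ext x
    unfold integrand
    split_ifs <;> simp
  have hpsi : ∀ l : ℝ, 0 ≤ l → psi Lib.MP_0b691a_pr.gam 0 Lib.MP_0b691a_pr.nu l =
      Lib.MP_0b691a_pr.psi0 l := by
    intro l hl
    unfold psi
    rw [hres, hint, ← Lib.MP_0b691a_pr.psi_eq' hl]
    ring
  obtain ⟨Φ, hΦ, hpos⟩ := Lib.MP_0b691a_pr.exists_phi
  have hΦ0 : 0 ≤ Φ := hΦ.1.1
  have hset : {l : ℝ | 0 ≤ l ∧ psi Lib.MP_0b691a_pr.gam 0 Lib.MP_0b691a_pr.nu l = 0} =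
      {l : ℝ | 0 ≤ l ∧ Lib.MP_0b691a_pr.psi0 l = 0} := by
    ext l
    constructor
    · rintro ⟨h1, h2⟩
      exact ⟨h1, by rw [← hpsi l h1]; exact h2⟩
    · rintro ⟨h1, h2⟩
      exact ⟨h1, by rw [hpsi l h1]; exact h2⟩
  have hW : IsScaleFunction Lib.MP_0b691a_pr.gam 0 Lib.MP_0b691a_pr.nu Φ Lib.MP_0b691a_pr.W := by
    refine ⟨?_, Lib.MP_0b691a_pr.W_nonneg, fun x hx => Lib.MP_0b691a_pr.W_of_nonpos hx.le,
      fun x _ => Lib.MP_0b691a_pr.W_continuous.continuousWithinAt, ?_, ?_⟩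
    · rw [hset]; exact hΦ
    · intro β hβ
      rw [integrableOn_Ici_iff_integrableOn_Ioi]
      exact (Lib.MP_0b691a_pr.W_laplace_full (by linarith) (hpos β hβ)).1
    · intro β hβ
      rw [integral_Ici_eq_integral_Ioi, hpsi β (by linarith)]
      exact (Lib.MP_0b691a_pr.W_laplace_full (by linarith) (hpos β hβ)).2
  refine ⟨Lib.MP_0b691a_pr.gam, Lib.MP_0b691a_pr.nu, Φ, Lib.MP_0b691a_pr.W,
    ⟨Lib.MP_0b691a_pr.nu_Ici, Lib.MP_0b691a_pr.nu_min⟩,
    Lib.MP_0b691a_pr.nu_unbounded_variation, ?_, hW, ?_, ?_, Lib.MP_0b691a_pr.W_continuous,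
    Lib.MP_0b691a_pr.W_strictMonoOn, Lib.MP_0b691a_pr.W_contDiffOn,
    fun y hy => Lib.MP_0b691a_pr.tail_lt_top hy, Lib.MP_0b691a_pr.tail_not_continuous⟩
  · intro l hl
    rw [hint]
    exact (Lib.MP_0b691a_pr.comp_integrable hl).integrableOn
  · intro V hV
    have hae := Lib.MP_0b691a_pr.laplace_unique_ae (b := Φ) hV.nonneg hW.nonneg
      (fun β hβ => (hV.integrable β hβ).mono_set Ioi_subset_Ici_self)
      (fun β hβ => (hW.integrable β hβ).mono_set Ioi_subset_Ici_self)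
      (fun β hβ => by
        rw [← integral_Ici_eq_integral_Ioi, ← integral_Ici_eq_integral_Ioi, hV.laplace β hβ,
          hW.laplace β hβ])
    have hge := Lib.MP_0b691a_pr.eq_of_ae_of_rightCont hV.right_cont hW.right_cont hae
    funext x
    rcases lt_or_ge x 0 with hx | hx
    · rw [hV.eq_zero x hx, hW.eq_zero x hx]
    · exact hge x hx
  · intro β hβ
    rw [hpsi β (by linarith)]
    exact hpos β hβ

end Pool.Agent.Results.MP_0b691a_pr.SmoothScaleJumpTail
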